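import Mathlib.Tactic.Linarith.Frontend
import Mathlib.Tactic.NormNum.DivMod
import Mathlib.Algebra.Order.BigOperators.Group.Finset
import Mathlib.Algebra.EuclideanDomain.Int
import Mathlib.Algebra.EuclideanDomain.Basic
import Mathlib.Algebra.CharP.Defs
import Mathlib.Data.Int.Interval
import Mathlib.Data.Int.ConditionallyCompleteOrder
import Mathlib.Data.Int.Star
import Mathlib.Algebra.Order.Ring.Star
import Mathlib.Tactic.Algebra.Basic
import Pool.Agent.MP_785f4e_co.Defs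

-- ======== part 0: formerly Pool.Agent.MP_785f4e_co.Graph
section MrgPart0

set_option autoImplicit false

namespace Pool.Agent.MP_785f4e_co

/-- the four vertices of a crossing -/
inductive Tp : Type
  | W | E | N | S
  deriving DecidableEq

/-- vertices of the twisted grid -/
structure Vx : Type where
  i : ℤ
  j : ℤ
  t : Tp
  deriving DecidableEq

open Tp

def fwd : Vx → Vx
  | ⟨i, j, W⟩ => ⟨i, j, E⟩
  | ⟨i, j, E⟩ => ⟨i + 1, j, W⟩
  | ⟨i, j, S⟩ => ⟨i, j, N⟩
  | ⟨i, j, N⟩ => ⟨i, j + 1, S⟩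

def bwd : Vx → Vx
  | ⟨i, j, E⟩ => ⟨i, j, W⟩
  | ⟨i, j, W⟩ => ⟨i - 1, j, E⟩
  | ⟨i, j, N⟩ => ⟨i, j, S⟩
  | ⟨i, j, S⟩ => ⟨i, j - 1, N⟩

def cross : Vx → Vx
  | ⟨i, j, W⟩ => if (i + j) % 2 = 0 then ⟨i, j, S⟩ else ⟨i, j, N⟩
  | ⟨i, j, E⟩ => if (i + j) % 2 = 0 then ⟨i, j, N⟩ else ⟨i, j, S⟩
  | ⟨i, j, N⟩ => if (i + j) % 2 = 0 then ⟨i, j, E⟩ else ⟨i, j, W⟩
  | ⟨i, j, S⟩ => if (i + j) % 2 = 0 then ⟨i, j, W⟩ else ⟨i, j, E⟩

theorem bwd_fwd (x : Vx) : bwd (fwd x) = x := by
  rcases x with ⟨i, j, t⟩; cases t <;> simp [fwd, bwd]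

theorem fwd_bwd (x : Vx) : fwd (bwd x) = x := by
  rcases x with ⟨i, j, t⟩; cases t <;> simp [fwd, bwd]

theorem cross_cross (x : Vx) : cross (cross x) = x := by
  rcases x with ⟨i, j, t⟩
  cases t <;> by_cases h : (i + j) % 2 = 0 <;> simp [cross, h]

theorem fwd_ne (x : Vx) : fwd x ≠ x := by
  rcases x with ⟨i, j, t⟩; cases t <;> simp [fwd]

theorem bwd_ne (x : Vx) : bwd x ≠ x := by
  rcases x with ⟨i, j, t⟩; cases t <;> simp [bwd]

theorem cross_ne (x : Vx) : cross x ≠ x := by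
  rcases x with ⟨i, j, t⟩
  cases t <;> by_cases h : (i + j) % 2 = 0 <;> simp [cross, h]

/-- the twisted grid graph -/
def TG : SimpleGraph Vx where
  Adj x y := y = fwd x ∨ y = bwd x ∨ y = cross x
  symm := ⟨by
    intro x y h
    rcases h with h | h | h
    · right; left; rw [h, bwd_fwd]
    · left; rw [h, fwd_bwd]
    · right; right; rw [h, cross_cross]⟩
  loopless := ⟨by
    intro x h
    rcases h with h | h | h
    · exact fwd_ne x h.symm
    · exact bwd_ne x h.symm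
    · exact cross_ne x h.symm⟩

theorem TG_adj (x y : Vx) : TG.Adj x y ↔ (y = fwd x ∨ y = bwd x ∨ y = cross x) := Iff.rfl

def px : Vx → ℤ
  | ⟨i, _, W⟩ => 4 * i - 1
  | ⟨i, _, E⟩ => 4 * i + 1
  | ⟨i, _, N⟩ => 4 * i
  | ⟨i, _, S⟩ => 4 * i

def py : Vx → ℤ
  | ⟨_, j, W⟩ => 4 * j
  | ⟨_, j, E⟩ => 4 * j
  | ⟨_, j, N⟩ => 4 * j + 1
  | ⟨_, j, S⟩ => 4 * j - 1

def pp (x : Vx) : ℤ := px x + py x
def pq (x : Vx) : ℤ := py x - px x

def v0 : Vx := ⟨0, 0, W⟩

/-- twice the distance from `v0` -/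
def D2 : Vx → ℤ
  | ⟨i, j, W⟩ => (if 0 ≤ i then 4 * i else -4 * i) + (if 0 ≤ j then 4 * j else -4 * j) +
      (if j % 2 = 1 then (if i = 0 ∧ 0 < j then 6 else 2)
       else if (0 < j ∧ -1 ≤ i ∧ i ≤ 1) ∨ (j < 0 ∧ i = 0) then 4 else 0)
  | ⟨i, j, E⟩ => (if 0 ≤ i then 4 * i + 2 else -4 * i - 2) + (if 0 ≤ j then 4 * j else -4 * j) +
      (if j % 2 = 1 then (if i = -1 ∧ 0 < j then 6 else 2)
       else if (0 < j ∧ -2 ≤ i ∧ i ≤ 0) ∨ (j < 0 ∧ i = -1) then 4 else 0)
  | ⟨i, j, N⟩ => if 0 ≤ i then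
        (if 0 ≤ j then 4 * i + 4 * j + 2 + 2 * (1 - i % 2) else 4 * i - 4 * j + 2 * (i % 2))
      else
        (if 0 ≤ j then -4 * i + 4 * j + 2 * (i % 2) else -4 * i - 4 * j - 2 + 2 * (1 - i % 2))
  | ⟨i, j, S⟩ => if 0 ≤ i then
        (if 1 ≤ j then 4 * i + 4 * j + 2 * (1 - i % 2) else 4 * i - 4 * j + 2 + 2 * (i % 2))
      else
        (if 1 ≤ j then -4 * i + 4 * j - 2 + 2 * (i % 2) else -4 * i - 4 * j + 2 * (1 - i % 2))

theorem D2_fwd (x : Vx) : D2 (fwd x) ≤ D2 x + 2 ∧ D2 x ≤ D2 (fwd x) + 2 := by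
  rcases x with ⟨i, j, t⟩
  cases t <;> simp only [fwd, D2] <;> split_ifs <;> omega

theorem D2_cross (x : Vx) : D2 (cross x) ≤ D2 x + 2 := by
  rcases x with ⟨i, j, t⟩
  cases t <;> by_cases h : (i + j) % 2 = 0 <;> simp only [cross, h, if_true, if_false, D2] <;>
    split_ifs <;> omega

theorem D2_adj {x y : Vx} (h : TG.Adj x y) : D2 y ≤ D2 x + 2 := by
  rcases h with h | h | h
  · rw [h]; exact (D2_fwd x).1
  · have := (D2_fwd (bwd x)).2
    rw [fwd_bwd] at this; rw [h]; exact this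
  · rw [h]; exact D2_cross x

theorem D2_desc (x : Vx) (hx : x ≠ v0) :
    D2 (fwd x) + 2 ≤ D2 x ∨ D2 (bwd x) + 2 ≤ D2 x ∨ D2 (cross x) + 2 ≤ D2 x := by
  rcases x with ⟨i, j, t⟩
  cases t
  · have hx' : ¬ (i = 0 ∧ j = 0) := by
      rintro ⟨rfl, rfl⟩; exact hx rfl
    by_cases h : (i + j) % 2 = 0 <;> simp only [fwd, bwd, cross, h, if_true, if_false, D2] <;>
      split_ifs <;> omega
  all_goals
    by_cases h : (i + j) % 2 = 0 <;> simp only [fwd, bwd, cross, h, if_true, if_false, D2] <;>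
      split_ifs <;> omega

theorem D2_bounds (x : Vx) :
    |pp x - pp v0| ≤ D2 x ∧ |pq x - pq v0| ≤ D2 x ∧
      D2 x ≤ max |pp x - pp v0| |pq x - pq v0| + 6 := by
  rcases x with ⟨i, j, t⟩
  cases t <;> simp only [pp, pq, px, py, v0, D2, abs_eq_max_neg] <;> split_ifs <;> omega

theorem pp_adj {x y : Vx} (h : TG.Adj x y) :
    pp y ≤ pp x + 2 ∧ pq y ≤ pq x + 2 := by
  rcases x with ⟨i, j, t⟩
  rcases h with h | h | h <;> subst h <;> cases t <;> by_cases h : (i + j) % 2 = 0 <;>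
    simp only [fwd, bwd, cross, h, if_true, if_false, pp, pq, px, py] <;> omega

end Pool.Agent.MP_785f4e_co

end MrgPart0

-- ======== part 1: formerly Pool.Agent.MP_785f4e_co.Dist
section MrgPart1

set_option autoImplicit false

namespace Pool.Agent.MP_785f4e_co

open Tp SimpleGraph

theorem pot_walk {V : Type} (G : SimpleGraph V) (f : V → ℤ)
    (hf : ∀ x y, G.Adj x y → f y ≤ f x + 2) {x y : V} (p : G.Walk x y) :
    f y ≤ f x + 2 * (p.length : ℤ) := by
  induction p with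
  | nil => simp
  | cons h p ih =>
    have := hf _ _ h
    simp only [Walk.length_cons]; push_cast; omega

theorem pot_dist {V : Type} (G : SimpleGraph V) (f : V → ℤ)
    (hf : ∀ x y, G.Adj x y → f y ≤ f x + 2) {x y : V} (h : G.Reachable x y) :
    f y ≤ f x + 2 * (G.dist x y : ℤ) := by
  obtain ⟨p, hp⟩ := h.exists_walk_length_eq_dist
  rw [← hp]; exact pot_walk G f hf p

theorem D2_nonneg (x : Vx) : 0 ≤ D2 x := le_trans (abs_nonneg _) (D2_bounds x).1

theorem exists_walk_D2 (n : ℕ) : ∀ x : Vx, (D2 x).toNat ≤ n →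
    ∃ p : TG.Walk x v0, 2 * (p.length : ℤ) ≤ D2 x := by
  induction n with
  | zero =>
    intro x hx
    by_cases h : x = v0
    · subst h; exact ⟨Walk.nil, by simpa using D2_nonneg v0⟩
    · have h1 := D2_desc x h
      have h2 := D2_nonneg (fwd x)
      have h3 := D2_nonneg (bwd x)
      have h4 := D2_nonneg (cross x)
      omega
  | succ n ih =>
    intro x hx
    by_cases h : x = v0
    · subst h; exact ⟨Walk.nil, by simpa using D2_nonneg v0⟩
    · have key : ∀ y, TG.Adj x y → D2 y + 2 ≤ D2 x →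
          ∃ p : TG.Walk x v0, 2 * (p.length : ℤ) ≤ D2 x := by
        intro y hxy hy
        have h0 := D2_nonneg y
        obtain ⟨p, hp⟩ := ih y (by omega)
        refine ⟨Walk.cons hxy p, ?_⟩
        simp only [Walk.length_cons]; push_cast; omega
      rcases D2_desc x h with h1 | h1 | h1
      · exact key _ (Or.inl rfl) h1
      · exact key _ (Or.inr (Or.inl rfl)) h1
      · exact key _ (Or.inr (Or.inr rfl)) h1

theorem reach_v0 (x : Vx) : TG.Reachable x v0 := by
  obtain ⟨p, _⟩ := exists_walk_D2 _ x le_rfl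
  exact ⟨p⟩

theorem TG_connected : TG.Connected := by
  have : Nonempty Vx := ⟨v0⟩
  exact Connected.mk (fun x y => (reach_v0 x).trans (reach_v0 y).symm)

theorem dist_v0 (x : Vx) : 2 * (TG.dist x v0 : ℤ) = D2 x := by
  apply le_antisymm
  · obtain ⟨p, hp⟩ := exists_walk_D2 _ x le_rfl
    have := TG.dist_le p
    omega
  · have := pot_dist TG D2 (fun x y h => D2_adj h) (reach_v0 x).symm
    rw [TG.dist_comm]
    have h0 : D2 v0 = 0 := by simp [D2, v0]
    omega

theorem dist_lower (x y : Vx) :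
    |pp x - pp y| ≤ 2 * (TG.dist x y : ℤ) ∧ |pq x - pq y| ≤ 2 * (TG.dist x y : ℤ) := by
  have r := TG_connected.preconnected x y
  have h1 := pot_dist TG pp (fun x y h => (pp_adj h).1) r
  have h2 := pot_dist TG pq (fun x y h => (pp_adj h).2) r
  have h3 := pot_dist TG pp (fun x y h => (pp_adj h).1) r.symm
  have h4 := pot_dist TG pq (fun x y h => (pp_adj h).2) r.symm
  rw [TG.dist_comm] at h3 h4
  constructor <;> rw [abs_le] <;> constructor <;> omega

theorem iso_dist_le {V : Type} {G : SimpleGraph V} (hG : G.Connected) (φ : G ≃g G) (x y : V) :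
    G.dist (φ x) (φ y) ≤ G.dist x y := by
  obtain ⟨p, hp⟩ := (hG.preconnected x y).exists_walk_length_eq_dist
  have := G.dist_le (p.map φ.toHom)
  rw [Walk.length_map, hp] at this
  exact this

theorem iso_dist {V : Type} {G : SimpleGraph V} (hG : G.Connected) (φ : G ≃g G) (x y : V) :
    G.dist (φ x) (φ y) = G.dist x y := by
  apply le_antisymm (iso_dist_le hG φ x y)
  have := iso_dist_le hG φ.symm (φ x) (φ y)
  simpa using this

/-- an automorphism from an involution-like pair of maps compatible with the three moves -/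
def mkAut (f g : Vx → Vx) (h1 : ∀ x, g (f x) = x) (h2 : ∀ x, f (g x) = x)
    (hf : ∀ x y, TG.Adj x y → TG.Adj (f x) (f y))
    (hg : ∀ x y, TG.Adj x y → TG.Adj (g x) (g y)) : TG ≃g TG where
  toFun := f
  invFun := g
  left_inv := h1
  right_inv := h2
  map_rel_iff' := by
    intro a b
    constructor
    · intro h
      have := hg _ _ h
      simpa [h1] using this
    · exact hf a b

def opp : Tp → Tp
  | W => E | E => W | N => S | S => N

/-- rotation by a half turn sending `v0` to `⟨a, b, E⟩` -/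
def rotF (a b : ℤ) (x : Vx) : Vx := ⟨a - x.i, b - x.j, opp x.t⟩

theorem rotF_rotF (a b : ℤ) (x : Vx) : rotF a b (rotF a b x) = x := by
  rcases x with ⟨i, j, t⟩; cases t <;> simp [rotF, opp]

theorem rotF_adj (a b : ℤ) (hab : (a + b) % 2 = 0) (x y : Vx) (h : TG.Adj x y) :
    TG.Adj (rotF a b x) (rotF a b y) := by
  rcases x with ⟨i, j, t⟩
  have e : ((a - i + (b - j)) % 2 = 0) ↔ ((i + j) % 2 = 0) := by omega
  rcases h with h | h | h <;> subst h <;> cases t <;> by_cases h : (i + j) % 2 = 0 <;>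
    simp [TG_adj, rotF, opp, fwd, bwd, cross, h, e] <;> omega

def rot (a b : ℤ) (hab : (a + b) % 2 = 0) : TG ≃g TG :=
  mkAut (rotF a b) (rotF a b) (rotF_rotF a b) (rotF_rotF a b) (rotF_adj a b hab) (rotF_adj a b hab)

def flipT : Tp → Tp
  | W => E | E => W | N => N | S => S

/-- reflection in the vertical line between the columns `0` and `1` -/
def refF (x : Vx) : Vx := ⟨1 - x.i, x.j, flipT x.t⟩

theorem refF_refF (x : Vx) : refF (refF x) = x := by
  rcases x with ⟨i, j, t⟩; cases t <;> simp [refF, flipT]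

theorem refF_adj (x y : Vx) (h : TG.Adj x y) : TG.Adj (refF x) (refF y) := by
  rcases x with ⟨i, j, t⟩
  have e : ((1 - i + j) % 2 = 0) ↔ ¬ ((i + j) % 2 = 0) := by omega
  rcases h with h | h | h <;> subst h <;> cases t <;> by_cases h : (i + j) % 2 = 0 <;>
    simp [TG_adj, refF, flipT, fwd, bwd, cross, h, e] <;> omega

def refl1 : TG ≃g TG := mkAut refF refF refF_refF refF_refF refF_adj refF_adj

def diagT : Tp → Tp
  | W => S | S => W | N => E | E => N

/-- reflection in the main diagonal -/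
def diagF (x : Vx) : Vx := ⟨x.j, x.i, diagT x.t⟩

theorem diagF_diagF (x : Vx) : diagF (diagF x) = x := by
  rcases x with ⟨i, j, t⟩; cases t <;> simp [diagF, diagT]

theorem diagF_adj (x y : Vx) (h : TG.Adj x y) : TG.Adj (diagF x) (diagF y) := by
  rcases x with ⟨i, j, t⟩
  have e : ((j + i) % 2 = 0) ↔ ((i + j) % 2 = 0) := by omega
  rcases h with h | h | h <;> subst h <;> cases t <;> by_cases h : (i + j) % 2 = 0 <;>
    simp [TG_adj, diagF, diagT, fwd, bwd, cross, h, e]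

def diag : TG ≃g TG := mkAut diagF diagF diagF_diagF diagF_diagF diagF_adj diagF_adj

/-- the automorphism preserves or swaps the two diagonal coordinates, up to sign and shift -/
def Good (φ : TG ≃g TG) : Prop :=
  (∀ x y, |pp (φ x) - pp (φ y)| = |pp x - pp y| ∧ |pq (φ x) - pq (φ y)| = |pq x - pq y|) ∨
  (∀ x y, |pp (φ x) - pp (φ y)| = |pq x - pq y| ∧ |pq (φ x) - pq (φ y)| = |pp x - pp y|)

theorem Good.trans {φ ψ : TG ≃g TG} (h1 : Good φ) (h2 : Good ψ) : Good (φ.trans ψ) := by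
  rcases h1 with h1 | h1 <;> rcases h2 with h2 | h2
  · left; intro x y
    exact ⟨((h2 (φ x) (φ y)).1).trans (h1 x y).1, ((h2 (φ x) (φ y)).2).trans (h1 x y).2⟩
  · right; intro x y
    exact ⟨((h2 (φ x) (φ y)).1).trans (h1 x y).2, ((h2 (φ x) (φ y)).2).trans (h1 x y).1⟩
  · right; intro x y
    exact ⟨((h2 (φ x) (φ y)).1).trans (h1 x y).1, ((h2 (φ x) (φ y)).2).trans (h1 x y).2⟩
  · left; intro x y
    exact ⟨((h2 (φ x) (φ y)).1).trans (h1 x y).2, ((h2 (φ x) (φ y)).2).trans (h1 x y).1⟩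

theorem pp_rotF (a b : ℤ) (x : Vx) :
    pp (rotF a b x) = 4 * a + 4 * b - pp x ∧ pq (rotF a b x) = 4 * b - 4 * a - pq x := by
  rcases x with ⟨i, j, t⟩
  cases t <;> simp only [rotF, opp, pp, pq, px, py] <;> omega

theorem good_rot (a b : ℤ) (hab : (a + b) % 2 = 0) : Good (rot a b hab) := by
  left; intro x y
  have h1 := pp_rotF a b x
  have h2 := pp_rotF a b y
  change |pp (rotF a b x) - pp (rotF a b y)| = _ ∧ |pq (rotF a b x) - pq (rotF a b y)| = _
  simp only [abs_eq_max_neg]; omega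

theorem pp_refF (x : Vx) : pp (refF x) = 4 + pq x ∧ pq (refF x) = pp x - 4 := by
  rcases x with ⟨i, j, t⟩
  cases t <;> simp only [refF, flipT, pp, pq, px, py] <;> omega

theorem good_ref : Good refl1 := by
  right; intro x y
  have h1 := pp_refF x
  have h2 := pp_refF y
  change |pp (refF x) - pp (refF y)| = _ ∧ |pq (refF x) - pq (refF y)| = _
  simp only [abs_eq_max_neg]; omega

theorem pp_diagF (x : Vx) : pp (diagF x) = pp x ∧ pq (diagF x) = - pq x := by
  rcases x with ⟨i, j, t⟩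
  cases t <;> simp only [diagF, diagT, pp, pq, px, py] <;> omega

theorem good_diag : Good diag := by
  left; intro x y
  have h1 := pp_diagF x
  have h2 := pp_diagF y
  change |pp (diagF x) - pp (diagF y)| = _ ∧ |pq (diagF x) - pq (diagF y)| = _
  simp only [abs_eq_max_neg]; omega

theorem good_to_v0_E (i j : ℤ) (h : (i + j) % 2 = 0) :
    ∃ φ : TG ≃g TG, Good φ ∧ φ ⟨i, j, E⟩ = v0 :=
  ⟨rot i j h, good_rot i j h, by
    change rotF i j ⟨i, j, E⟩ = v0
    simp [rotF, opp, v0]⟩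

theorem good_step {x : Vx} (ψ : TG ≃g TG) (hψ : Good ψ)
    (h : ∃ φ : TG ≃g TG, Good φ ∧ φ (ψ x) = v0) : ∃ φ : TG ≃g TG, Good φ ∧ φ x = v0 := by
  obtain ⟨φ, h1, h2⟩ := h
  exact ⟨ψ.trans φ, hψ.trans h1, h2⟩

theorem good_to_v0_W (i j : ℤ) (h : (i + j) % 2 = 0) :
    ∃ φ : TG ≃g TG, Good φ ∧ φ ⟨i, j, W⟩ = v0 := by
  apply good_step (rot 0 0 (by norm_num)) (good_rot 0 0 _)
  exact good_to_v0_E (0 - i) (0 - j) (by omega)

theorem good_to_v0_H (i j : ℤ) :
    (∃ φ : TG ≃g TG, Good φ ∧ φ ⟨i, j, W⟩ = v0) ∧ (∃ φ : TG ≃g TG, Good φ ∧ φ ⟨i, j, E⟩ = v0) := by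
  by_cases h : (i + j) % 2 = 0
  · exact ⟨good_to_v0_W i j h, good_to_v0_E i j h⟩
  · constructor
    · apply good_step refl1 good_ref
      exact good_to_v0_E (1 - i) j (by omega)
    · apply good_step refl1 good_ref
      exact good_to_v0_W (1 - i) j (by omega)

theorem good_to_v0 (x : Vx) : ∃ φ : TG ≃g TG, Good φ ∧ φ x = v0 := by
  rcases x with ⟨i, j, t⟩
  cases t
  · exact (good_to_v0_H i j).1
  · exact (good_to_v0_H i j).2
  · apply good_step diag good_diag
    exact (good_to_v0_H j i).2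
  · apply good_step diag good_diag
    exact (good_to_v0_H j i).1

theorem TG_transitive (u v : Vx) : ∃ φ : TG ≃g TG, φ u = v := by
  obtain ⟨φ, _, h1⟩ := good_to_v0 u
  obtain ⟨ψ, _, h2⟩ := good_to_v0 v
  refine ⟨φ.trans ψ.symm, ?_⟩
  change ψ.symm (φ u) = v
  rw [h1, ← h2]; simp

theorem dist_upper (x y : Vx) :
    2 * (TG.dist x y : ℤ) ≤ max |pp x - pp y| |pq x - pq y| + 6 := by
  obtain ⟨φ, hφ, h⟩ := good_to_v0 y
  rw [← iso_dist TG_connected φ x y, h, dist_v0]
  have h1 := (D2_bounds (φ x)).2.2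
  rw [← h] at h1
  rcases hφ with hφ | hφ
  · rw [(hφ x y).1, (hφ x y).2] at h1; exact h1
  · rw [(hφ x y).1, (hφ x y).2, max_comm] at h1; exact h1

theorem dist_E (a b : ℤ) (hab : (a + b) % 2 = 0) (x : Vx) :
    2 * (TG.dist x ⟨a, b, E⟩ : ℤ) = D2 (rotF a b x) := by
  rw [← iso_dist TG_connected (rot a b hab), ← dist_v0]
  have : (rot a b hab) ⟨a, b, E⟩ = v0 := by
    change rotF a b ⟨a, b, E⟩ = v0
    simp [rotF, opp, v0]
  rw [this]; rfl

end Pool.Agent.MP_785f4e_co

end MrgPart1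

-- ======== part 2: formerly Pool.Agent.MP_785f4e_co.Cells
section MrgPart2

set_option autoImplicit false

namespace Pool.Agent.MP_785f4e_co

open Tp SimpleGraph

open Classical in
/-- the sites with an infinite cell -/
noncomputable def infSites {V : Type} (G : SimpleGraph V) (T : Finset V) : Finset V :=
  T.filter (fun v => (cell G T v).Infinite)

theorem infCount_eq {V : Type} (G : SimpleGraph V) (T : Finset V) :
    infCount G T = (infSites G T).card := by
  unfold infCount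
  rw [← Set.ncard_coe_finset]
  congr 1
  ext v; simp [infSites]

theorem infSites_subset {V : Type} (G : SimpleGraph V) (T : Finset V) : infSites G T ⊆ T := by
  classical
  intro v hv; simp [infSites] at hv; exact hv.1

theorem mem_infSites {V : Type} (G : SimpleGraph V) (T : Finset V) (v : V) :
    v ∈ infSites G T ↔ v ∈ T ∧ (cell G T v).Infinite := by
  simp [infSites]

/-- removing all sites with finite cells except one keeps that cell finite -/
theorem cell_infSites_finite {V : Type} (G : SimpleGraph V) (T : Finset V) (v : V) (hv : v ∈ T)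
    (hv' : v ∉ infSites G T) : (cell G (infSites G T) v).Finite := by
  classical
  have hfin : (⋃ t ∈ (T \ infSites G T : Finset V), cell G T t).Finite := by
    apply Set.Finite.biUnion (Finset.finite_toSet _)
    intro t ht
    have ht' : t ∈ T \ infSites G T := ht
    rw [Finset.mem_sdiff, mem_infSites] at ht'
    by_contra h
    exact ht'.2 ⟨ht'.1, h⟩
  apply hfin.subset
  intro u hu
  obtain ⟨t, htT, ht⟩ := T.exists_min_image (fun t => G.dist u t) ⟨v, hv⟩
  simp only [Set.mem_iUnion]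
  by_cases hK : t ∈ infSites G T
  · refine ⟨v, Finset.mem_sdiff.2 ⟨hv, hv'⟩, ?_⟩
    intro v' hv'T
    exact le_trans (hu t hK) (ht v' hv'T)
  · exact ⟨t, Finset.mem_sdiff.2 ⟨htT, hK⟩, ht⟩

theorem cell_mono {V : Type} (G : SimpleGraph V) {K T : Finset V} (h : K ⊆ T) (v : V) :
    cell G T v ⊆ cell G K v := fun _ hu w hw => hu w (h hw)

theorem cell_iso_finite {V : Type} {G : SimpleGraph V} (hG : G.Connected) (φ : G ≃g G)
    (K : Finset V) (v : V) (h : (cell G K v).Finite) :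
    (cell G (K.map φ.toEquiv.toEmbedding) (φ v)).Finite := by
  apply (h.image φ).subset
  intro u hu
  refine ⟨φ.symm u, ?_, by simp⟩
  intro w hw
  have := hu (φ w) (Finset.mem_map.2 ⟨w, hw, rfl⟩)
  rw [← iso_dist hG φ (φ.symm u) v, ← iso_dist hG φ (φ.symm u) w]
  simpa using this

theorem ray_out (K : Finset Vx) (h : (cell TG K v0).Finite) (u : ℕ → Vx)
    (hu : Function.Injective u) :
    ∃ n, ∃ w ∈ K, |pp (u n) - pp w| < D2 (u n) ∧ |pq (u n) - pq w| < D2 (u n) := by
  have : ∃ n, u n ∉ cell TG K v0 := by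
    by_contra hc
    push Not at hc
    exact (Set.infinite_of_injective_forall_mem hu hc) h
  obtain ⟨n, hn⟩ := this
  simp only [cell, Set.mem_ofPred_eq, not_forall, not_le] at hn
  obtain ⟨w, hw, hlt⟩ := hn
  refine ⟨n, w, hw, ?_⟩
  have h1 := dist_lower (u n) w
  have h2 := dist_v0 (u n)
  omega

theorem six (K : Finset Vx) (h : (cell TG K v0).Finite) :
    (∃ w ∈ K, 0 < pq w - pq v0 ∧ -14 < pp w - pp v0) ∧
    (∃ w ∈ K, 0 < pp w - pp v0 ∧ -10 < pq w - pq v0) ∧
    (∃ w ∈ K, 0 < pp w - pp v0 ∧ pq w - pq v0 < 0) ∧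
    (∃ w ∈ K, pp w - pp v0 < 0 ∧ 0 < pq w - pq v0) ∧
    (∃ w ∈ K, pq w - pq v0 < 0 ∧ pp w - pp v0 < 2) ∧
    (∃ w ∈ K, pp w - pp v0 < 0 ∧ pq w - pq v0 < 6) := by
  have e1 : pp v0 = -1 := by simp [pp, px, py, v0]
  have e2 : pq v0 = 1 := by simp [pq, px, py, v0]
  rw [e1, e2]
  refine ⟨?_, ?_, ?_, ?_, ?_, ?_⟩
  · obtain ⟨n, w, hw, h1, h2⟩ := ray_out K h (fun n => ⟨-2, n, N⟩)
      (by intro a b hab; simpa using hab)
    refine ⟨w, hw, ?_⟩
    generalize pp w = a at *
    generalize pq w = b at *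
    simp only [pp, pq, px, py, D2, abs_lt] at h1 h2
    split_ifs at h1 h2 <;> omega
  · obtain ⟨n, w, hw, h1, h2⟩ := ray_out K h (fun n => ⟨1, n, N⟩)
      (by intro a b hab; simpa using hab)
    refine ⟨w, hw, ?_⟩
    generalize pp w = a at *
    generalize pq w = b at *
    simp only [pp, pq, px, py, D2, abs_lt] at h1 h2
    split_ifs at h1 h2 <;> omega
  · obtain ⟨n, w, hw, h1, h2⟩ := ray_out K h (fun n => ⟨n, 0, W⟩)
      (by intro a b hab; simpa using hab)
    refine ⟨w, hw, ?_⟩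
    generalize pp w = a at *
    generalize pq w = b at *
    simp only [pp, pq, px, py, D2, abs_lt] at h1 h2
    split_ifs at h1 h2 <;> omega
  · obtain ⟨n, w, hw, h1, h2⟩ := ray_out K h (fun n => ⟨-n, 0, W⟩)
      (by intro a b hab; simpa using hab)
    refine ⟨w, hw, ?_⟩
    generalize pp w = a at *
    generalize pq w = b at *
    simp only [pp, pq, px, py, D2, abs_lt] at h1 h2
    split_ifs at h1 h2 <;> omega
  · obtain ⟨n, w, hw, h1, h2⟩ := ray_out K h (fun n => ⟨0, -n, S⟩)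
      (by intro a b hab; simpa using hab)
    refine ⟨w, hw, ?_⟩
    generalize pp w = a at *
    generalize pq w = b at *
    simp only [pp, pq, px, py, D2, abs_lt] at h1 h2
    split_ifs at h1 h2 <;> omega
  · obtain ⟨n, w, hw, h1, h2⟩ := ray_out K h (fun n => ⟨-1, -n, S⟩)
      (by intro a b hab; simpa using hab)
    refine ⟨w, hw, ?_⟩
    generalize pp w = a at *
    generalize pq w = b at *
    simp only [pp, pq, px, py, D2, abs_lt] at h1 h2
    split_ifs at h1 h2 <;> omega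

theorem four_le_card {V : Type} (K : Finset V) {a b c d : V} (ha : a ∈ K) (hb : b ∈ K)
    (hc : c ∈ K) (hd : d ∈ K) (h1 : a ≠ b) (h2 : a ≠ c) (h3 : a ≠ d) (h4 : b ≠ c) (h5 : b ≠ d)
    (h6 : c ≠ d) : 4 ≤ K.card := by
  classical
  have : ({a, b, c, d} : Finset V) ⊆ K := by
    intro x hx; simp at hx; rcases hx with rfl | rfl | rfl | rfl <;> assumption
  have h := Finset.card_le_card this
  rw [Finset.card_insert_of_notMem (by simp [h1, h2, h3]),
    Finset.card_insert_of_notMem (by simp [h4, h5]), Finset.card_pair h6] at h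
  exact h

theorem three_le_card {V : Type} (K : Finset V) {a b c : V} (ha : a ∈ K) (hb : b ∈ K)
    (hc : c ∈ K) (h1 : a ≠ b) (h2 : a ≠ c) (h4 : b ≠ c) : 3 ≤ K.card := by
  classical
  have : ({a, b, c} : Finset V) ⊆ K := by
    intro x hx; simp at hx; rcases hx with rfl | rfl | rfl <;> assumption
  have h := Finset.card_le_card this
  rw [Finset.card_insert_of_notMem (by simp [h1, h2]), Finset.card_pair h4] at h
  exact h

theorem near_three_v0 (K : Finset Vx) (hK : K.card ≤ 3) (h : (cell TG K v0).Finite) :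
    (∃ w ∈ K, |pp w - pp v0| ≤ 14) ∧ (∃ w ∈ K, |pq w - pq v0| ≤ 14) := by
  obtain ⟨⟨a, ha, ha'⟩, ⟨b, hb, hb'⟩, ⟨c, hc, hc'⟩, ⟨d, hd, hd'⟩, ⟨e, he, he'⟩, ⟨f, hf, hf'⟩⟩ :=
    six K h
  constructor
  · by_contra hcon
    push Not at hcon
    have h1 := hcon a ha
    have h2 := hcon c hc
    have h3 := hcon d hd
    have h4 := hcon e he
    rw [abs_eq_max_neg] at h1 h2 h3 h4
    have := four_le_card K ha hc hd he (by rintro rfl; omega) (by rintro rfl; omega)
      (by rintro rfl; omega) (by rintro rfl; omega) (by rintro rfl; omega) (by rintro rfl; omega)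
    omega
  · by_contra hcon
    push Not at hcon
    have h1 := hcon b hb
    have h2 := hcon c hc
    have h3 := hcon d hd
    have h4 := hcon f hf
    rw [abs_eq_max_neg] at h1 h2 h3 h4
    have := four_le_card K hb hc hd hf (by rintro rfl; omega) (by rintro rfl; omega)
      (by rintro rfl; omega) (by rintro rfl; omega) (by rintro rfl; omega) (by rintro rfl; omega)
    omega

theorem near_two_v0 (K : Finset Vx) (hK : K.card ≤ 2) (h : (cell TG K v0).Finite) :
    ∃ w ∈ K, |pp w - pp v0| ≤ 10 ∧ |pq w - pq v0| ≤ 10 := by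
  obtain ⟨-, ⟨b, hb, hb'⟩, ⟨c, hc, hc'⟩, ⟨d, hd, hd'⟩, ⟨e, he, he'⟩, -⟩ := six K h
  have hcd : c ≠ d := by rintro rfl; omega
  have hbc : b = c := by
    by_contra hne
    have := three_le_card K hb hc hd hne (by rintro rfl; omega) hcd
    omega
  have hec : e = c := by
    by_contra hne
    have := three_le_card K he hc hd hne (by rintro rfl; omega) hcd
    omega
  subst hbc; subst hec
  refine ⟨e, he, ?_⟩
  simp only [abs_le]; omega

theorem near_three (K : Finset Vx) (hK : K.card ≤ 3) (v : Vx) (h : (cell TG K v).Finite) :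
    (∃ w ∈ K, |pp w - pp v| ≤ 14) ∧ (∃ w ∈ K, |pq w - pq v| ≤ 14) := by
  obtain ⟨φ, hφ, hv⟩ := good_to_v0 v
  have h1 := cell_iso_finite TG_connected φ K v h
  rw [hv] at h1
  obtain ⟨⟨a, ha, ha'⟩, ⟨b, hb, hb'⟩⟩ := near_three_v0 _ (by simpa using hK) h1
  rw [Finset.mem_map] at ha hb
  obtain ⟨a, ha, rfl⟩ := ha
  obtain ⟨b, hb, rfl⟩ := hb
  rw [← hv] at ha' hb'
  change |pp (φ a) - pp (φ v)| ≤ 14 at ha'
  change |pq (φ b) - pq (φ v)| ≤ 14 at hb'
  rcases hφ with hφ | hφ
  · rw [(hφ a v).1] at ha'; rw [(hφ b v).2] at hb'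
    exact ⟨⟨a, ha, ha'⟩, ⟨b, hb, hb'⟩⟩
  · rw [(hφ a v).1] at ha'; rw [(hφ b v).2] at hb'
    exact ⟨⟨b, hb, hb'⟩, ⟨a, ha, ha'⟩⟩

theorem near_two (K : Finset Vx) (hK : K.card ≤ 2) (v : Vx) (h : (cell TG K v).Finite) :
    ∃ w ∈ K, TG.dist w v ≤ 8 := by
  obtain ⟨φ, hφ, hv⟩ := good_to_v0 v
  have h1 := cell_iso_finite TG_connected φ K v h
  rw [hv] at h1
  obtain ⟨a, ha, ha1, ha2⟩ := near_two_v0 _ (by simpa using hK) h1
  have hd := dist_upper a v0
  rw [Finset.mem_map] at ha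
  obtain ⟨a, ha, rfl⟩ := ha
  refine ⟨a, ha, ?_⟩
  rw [← iso_dist TG_connected φ a v, hv]
  change TG.dist (φ.toEquiv.toEmbedding a) v0 ≤ 8
  omega

theorem ppq_inj : Function.Injective (fun v : Vx => (pp v, pq v)) := by
  rintro ⟨i, j, t⟩ ⟨i', j', t'⟩ h
  simp only [Prod.mk.injEq] at h
  obtain ⟨h1, h2⟩ := h
  cases t <;> cases t' <;> simp only [pp, pq, px, py] at h1 h2 <;>
    first
    | (exfalso; omega)
    | (have e1 : i = i' := by omega
       have e2 : j = j' := by omega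
       rw [e1, e2])

theorem card_bound (T : Finset Vx) (h : infCount TG T ≤ 3) : T.card ≤ 7572 := by
  classical
  rw [infCount_eq] at h
  set K := infSites TG T with hK
  have hsub : (T \ K).image (fun v : Vx => (pp v, pq v)) ⊆
      (K.biUnion fun w => Finset.Icc (pp w - 14) (pp w + 14)) ×ˢ
        (K.biUnion fun w => Finset.Icc (pq w - 14) (pq w + 14)) := by
    intro z hz
    obtain ⟨v, hv, rfl⟩ := Finset.mem_image.1 hz
    rw [Finset.mem_sdiff] at hv
    obtain ⟨⟨a, ha, ha'⟩, ⟨b, hb, hb'⟩⟩ :=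
      near_three K h v (cell_infSites_finite TG T v hv.1 hv.2)
    rw [abs_le] at ha' hb'
    rw [Finset.mem_product]
    constructor
    · exact Finset.mem_biUnion.2 ⟨a, ha, by simp only [Finset.mem_Icc]; omega⟩
    · exact Finset.mem_biUnion.2 ⟨b, hb, by simp only [Finset.mem_Icc]; omega⟩
  have h1 := Finset.card_le_card hsub
  rw [Finset.card_image_of_injective _ ppq_inj, Finset.card_product] at h1
  have b1 : (K.biUnion fun w => Finset.Icc (pp w - 14) (pp w + 14)).card ≤ 87 := by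
    refine le_trans (Finset.card_biUnion_le_card_mul K _ 29 ?_) (by omega)
    intro w _; rw [Int.card_Icc]; omega
  have b2 : (K.biUnion fun w => Finset.Icc (pq w - 14) (pq w + 14)).card ≤ 87 := by
    refine le_trans (Finset.card_biUnion_le_card_mul K _ 29 ?_) (by omega)
    intro w _; rw [Int.card_Icc]; omega
  have h2 : (T \ K).card ≤ 87 * 87 := le_trans h1 (Nat.mul_le_mul b1 b2)
  have h3 := Finset.le_card_sdiff K T
  omega

theorem box_finite (R : ℤ) : {u : Vx | |u.i| ≤ R ∧ |u.j| ≤ R}.Finite := by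
  apply Set.Finite.of_finite_image (f := fun v : Vx => (pp v, pq v)) _ ppq_inj.injOn
  apply (Finset.finite_toSet
    (Finset.Icc (-8 * R - 2) (8 * R + 2) ×ˢ Finset.Icc (-8 * R - 2) (8 * R + 2))).subset
  rintro z ⟨⟨i, j, t⟩, ⟨h1, h2⟩, rfl⟩
  simp only [abs_le] at h1 h2
  simp only [Finset.coe_product, Finset.coe_Icc, Set.mem_prod, Set.mem_Icc]
  cases t <;> simp only [pp, pq, px, py] <;> omega

end Pool.Agent.MP_785f4e_co

end MrgPart2

-- ======== part 3: formerly Pool.Agent.MP_785f4e_co.Main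
section MrgPart3

set_option autoImplicit false

namespace Pool.Agent.MP_785f4e_co

open Tp SimpleGraph

theorem dom_east (m i j : ℤ) (t : Tp) (hm : 4 ≤ m) (hm2 : m % 2 = 0) (hj : -m < j)
    (h : m + 3 ≤ i ∨ (0 ≤ i ∧ m + 3 ≤ j)) : D2 (rotF m m ⟨i, j, t⟩) < D2 ⟨i, j, t⟩ := by
  cases t <;> simp only [rotF, opp, D2] <;> split_ifs <;> omega

theorem dom_west (m i j : ℤ) (t : Tp) (hm : 4 ≤ m) (hm2 : m % 2 = 0) (hj : -m < j)
    (h : i ≤ -m - 5 ∨ (i < 0 ∧ m + 3 ≤ j)) :
    D2 (rotF (-m - 2) m ⟨i, j, t⟩) < D2 ⟨i, j, t⟩ := by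
  cases t <;> simp only [rotF, opp, D2] <;> split_ifs <;> omega

theorem dom_south (m i j : ℤ) (t : Tp) (hm : 4 ≤ m) (hm2 : m % 2 = 0) (hj : j ≤ -m) :
    D2 (rotF 0 (-m) ⟨i, j, t⟩) < D2 ⟨i, j, t⟩ := by
  cases t <;> simp only [rotF, opp, D2] <;> split_ifs <;> omega

/-- three far sites already make the cell of `v0` finite -/
theorem cell_v0_finite (T : Finset Vx) (m : ℤ) (hm : 4 ≤ m) (hm2 : m % 2 = 0)
    (h1 : (⟨m, m, E⟩ : Vx) ∈ T) (h2 : (⟨-m - 2, m, E⟩ : Vx) ∈ T) (h3 : (⟨0, -m, E⟩ : Vx) ∈ T) :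
    (cell TG T v0).Finite := by
  apply (box_finite (m + 5)).subset
  rintro ⟨i, j, t⟩ hu
  have a1 := hu _ h1
  have a2 := hu _ h2
  have a3 := hu _ h3
  have b0 := dist_v0 ⟨i, j, t⟩
  have b1 := dist_E m m (by omega) ⟨i, j, t⟩
  have b2 := dist_E (-m - 2) m (by omega) ⟨i, j, t⟩
  have b3 := dist_E 0 (-m) (by omega) ⟨i, j, t⟩
  simp only [Set.mem_ofPred_eq, abs_le]
  by_cases hj : j ≤ -m
  · have := dom_south m i j t hm hm2 hj
    omega
  · by_cases c1 : m + 3 ≤ i ∨ (0 ≤ i ∧ m + 3 ≤ j)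
    · have := dom_east m i j t hm hm2 (by omega) c1
      omega
    · by_cases c2 : i ≤ -m - 5 ∨ (i < 0 ∧ m + 3 ≤ j)
      · have := dom_west m i j t hm hm2 (by omega) c2
        omega
      · omega

def gS (m : ℤ) (k : ℕ) : Vx :=
  if k = 0 then v0 else if k = 1 then ⟨m, m, E⟩ else if k = 2 then ⟨-m - 2, m, E⟩
  else ⟨0, -(m * ((k : ℤ) - 2)), E⟩

theorem gS_sep (m : ℤ) (hm : 4 ≤ m) (k l : ℕ) (h : k ≠ l) :
    m ≤ (TG.dist (gS m k) (gS m l) : ℤ) := by
  have hd := dist_lower (gS m k) (gS m l)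
  have f1 : 3 ≤ k → m ≤ m * ((k : ℤ) - 2) := by
    intro hk
    have : (1 : ℤ) ≤ (k : ℤ) - 2 := by omega
    nlinarith
  have f2 : 3 ≤ l → m ≤ m * ((l : ℤ) - 2) := by
    intro hk
    have : (1 : ℤ) ≤ (l : ℤ) - 2 := by omega
    nlinarith
  have f3 : m * ((k : ℤ) - 2) + m ≤ m * ((l : ℤ) - 2) ∨
      m * ((l : ℤ) - 2) + m ≤ m * ((k : ℤ) - 2) := by
    rcases lt_or_gt_of_ne h with h | h
    · left
      have : (k : ℤ) + 1 ≤ l := by omega
      nlinarith
    · right
      have : (l : ℤ) + 1 ≤ k := by omega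
      nlinarith
  generalize (TG.dist (gS m k) (gS m l) : ℤ) = D at *
  simp only [gS] at hd
  generalize m * ((k : ℤ) - 2) = A at *
  generalize m * ((l : ℤ) - 2) = B at *
  split_ifs at hd <;> simp only [pp, pq, px, py, v0, abs_le] at hd <;> omega

theorem not_survive (n d : ℕ) (hn : 4 ≤ n) : ∃ T : Finset Vx, n ≤ T.card ∧
    (∀ a ∈ T, ∀ b ∈ T, a ≠ b → d < TG.dist a b) ∧ infCount TG T < n := by
  classical
  set m : ℤ := 2 * d + 4 with hm
  have hm4 : 4 ≤ m := by omega
  have hinj : Function.Injective (gS m) := by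
    intro k l hkl
    by_contra hne
    have := gS_sep m hm4 k l hne
    rw [hkl, SimpleGraph.dist_self] at this
    omega
  have hcard : ((Finset.range n).image (gS m)).card = n := by
    rw [Finset.card_image_of_injective _ hinj, Finset.card_range]
  refine ⟨(Finset.range n).image (gS m), hcard.ge, ?_, ?_⟩
  · intro a ha b hb hab
    obtain ⟨k, _, rfl⟩ := Finset.mem_image.1 ha
    obtain ⟨l, _, rfl⟩ := Finset.mem_image.1 hb
    have := gS_sep m hm4 k l (by rintro rfl; exact hab rfl)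
    omega
  · rw [infCount_eq]
    have mem : ∀ k, k < n → gS m k ∈ (Finset.range n).image (gS m) := fun k hk =>
      Finset.mem_image.2 ⟨k, Finset.mem_range.2 hk, rfl⟩
    have hfin : (cell TG ((Finset.range n).image (gS m)) v0).Finite := by
      apply cell_v0_finite _ m hm4 (by omega)
      · simpa [gS] using mem 1 (by omega)
      · simpa [gS] using mem 2 (by omega)
      · have := mem 3 (by omega)
        have e : gS m 3 = ⟨0, -m, E⟩ := by simp [gS]
        rwa [e] at this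
    have hv0 : v0 ∈ (Finset.range n).image (gS m) := by simpa [gS] using mem 0 (by omega)
    have hss : infSites TG ((Finset.range n).image (gS m)) ⊂ (Finset.range n).image (gS m) := by
      rw [Finset.ssubset_iff_of_subset (infSites_subset _ _)]
      refine ⟨v0, hv0, ?_⟩
      rw [mem_infSites]
      exact fun h => h.2 hfin
    have := Finset.card_lt_card hss
    omega

theorem survive_three (T : Finset Vx) (hT : 3 ≤ T.card)
    (hsep : ∀ a ∈ T, ∀ b ∈ T, a ≠ b → 8 < TG.dist a b) : 3 ≤ infCount TG T := by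
  classical
  rw [infCount_eq]
  by_contra hc
  have hK : (infSites TG T).card ≤ 2 := by omega
  obtain ⟨v, hv, hv'⟩ : ∃ v ∈ T, v ∉ infSites TG T := by
    by_contra hcon
    push Not at hcon
    have := Finset.card_le_card (show T ⊆ infSites TG T from hcon)
    omega
  obtain ⟨w, hw, hd⟩ := near_two _ hK v (cell_infSites_finite TG T v hv hv')
  have := hsep w (infSites_subset _ _ hw) v hv (by rintro rfl; exact hv' hw)
  omega

theorem survival_TG : survival TG = 3 := by
  apply le_antisymm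
  · apply sSup_le
    rintro x ⟨n, rfl, _, d, hd⟩
    by_contra hc
    have hn : 4 ≤ n := by
      by_contra h
      apply hc
      have : n ≤ 3 := by omega
      exact_mod_cast this
    obtain ⟨T, h1, h2, h3⟩ := not_survive n d hn
    have := hd T h1 h2
    omega
  · apply le_sSup
    exact ⟨3, rfl, by norm_num, 8, survive_three⟩

def gT (M : ℤ) (k : ℕ) : Vx :=
  if k = 0 then ⟨M, 0, W⟩ else if k = 1 then ⟨-M, 0, W⟩ else if k = 2 then ⟨0, M, W⟩
  else if k = 3 then ⟨0, -M, W⟩ else ⟨k, 0, W⟩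

theorem cell_mid_finite (T : Finset Vx) (M k : ℤ) (hk : 0 ≤ k) (hM : k + 2 ≤ M)
    (h1 : (⟨M, 0, W⟩ : Vx) ∈ T) (h2 : (⟨-M, 0, W⟩ : Vx) ∈ T) (h3 : (⟨0, M, W⟩ : Vx) ∈ T)
    (h4 : (⟨0, -M, W⟩ : Vx) ∈ T) : (cell TG T ⟨k, 0, W⟩).Finite := by
  apply (box_finite (M + 1)).subset
  rintro ⟨i, j, t⟩ hu
  have a1 := hu _ h1
  have a2 := hu _ h2
  have a3 := hu _ h3
  have a4 := hu _ h4
  have b0 := dist_lower ⟨i, j, t⟩ ⟨k, 0, W⟩
  have b1 := dist_upper ⟨i, j, t⟩ ⟨M, 0, W⟩
  have b2 := dist_upper ⟨i, j, t⟩ ⟨-M, 0, W⟩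
  have b3 := dist_upper ⟨i, j, t⟩ ⟨0, M, W⟩
  have b4 := dist_upper ⟨i, j, t⟩ ⟨0, -M, W⟩
  simp only [Set.mem_ofPred_eq, abs_le]
  rw [abs_le, abs_le] at b0
  refine ⟨⟨?_, ?_⟩, ?_, ?_⟩
  · clear a1 a3 a4 b1 b3 b4
    cases t <;> simp only [pp, pq, px, py, abs_eq_max_neg] at b0 b2 <;> omega
  · clear a2 a3 a4 b2 b3 b4
    cases t <;> simp only [pp, pq, px, py, abs_eq_max_neg] at b0 b1 <;> omega
  · clear a1 a2 a3 b1 b2 b3
    cases t <;> simp only [pp, pq, px, py, abs_eq_max_neg] at b0 b4 <;> omega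
  · clear a1 a2 a4 b1 b2 b4
    cases t <;> simp only [pp, pq, px, py, abs_eq_max_neg] at b0 b3 <;> omega

theorem exists_four (n : ℕ) (hn : 4 ≤ n) : ∃ T : Finset Vx, T.card = n ∧ infCount TG T ≤ 4 := by
  classical
  set M : ℤ := n + 2 with hM
  have hinj : Set.InjOn (gT M) (Finset.range n : Set ℕ) := by
    intro k hk l hl hkl
    simp only [Finset.coe_range, Set.mem_Iio] at hk hl
    simp only [gT] at hkl
    split_ifs at hkl <;> simp only [Vx.mk.injEq] at hkl <;> omega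
  refine ⟨(Finset.range n).image (gT M), ?_, ?_⟩
  · rw [Finset.card_image_of_injOn hinj, Finset.card_range]
  · rw [infCount_eq]
    have mem : ∀ k, k < n → gT M k ∈ (Finset.range n).image (gT M) := fun k hk =>
      Finset.mem_image.2 ⟨k, Finset.mem_range.2 hk, rfl⟩
    have hsub : infSites TG ((Finset.range n).image (gT M)) ⊆ (Finset.range 4).image (gT M) := by
      intro v hv
      rw [mem_infSites] at hv
      obtain ⟨hv1, hv2⟩ := hv
      obtain ⟨k, hk, rfl⟩ := Finset.mem_image.1 hv1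
      rw [Finset.mem_range] at hk
      by_cases h4 : k < 4
      · exact Finset.mem_image.2 ⟨k, Finset.mem_range.2 h4, rfl⟩
      · exfalso
        apply hv2
        have e : gT M k = ⟨k, 0, W⟩ := by
          simp only [gT]
          rw [if_neg (by omega), if_neg (by omega), if_neg (by omega), if_neg (by omega)]
        rw [e]
        apply cell_mid_finite _ M k (by omega) (by omega)
        · simpa [gT] using mem 0 (by omega)
        · simpa [gT] using mem 1 (by omega)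
        · simpa [gT] using mem 2 (by omega)
        · simpa [gT] using mem 3 (by omega)
    refine le_trans (Finset.card_le_card hsub) (le_trans Finset.card_image_le ?_)
    simp

theorem minCount_TG (n : ℕ) (hn : 7573 ≤ n) : minCount TG n = 4 := by
  obtain ⟨T, h1, h2⟩ := exists_four n (by omega)
  have low : ∀ T : Finset Vx, T.card = n → 4 ≤ infCount TG T := by
    intro T hT
    by_contra hc
    have := card_bound T (by omega)
    omega
  apply le_antisymm
  · exact le_trans (Nat.sInf_le ⟨T, h1, rfl⟩) h2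
  · unfold minCount
    refine le_csInf ⟨infCount TG T, T, h1, rfl⟩ ?_
    rintro k ⟨T', h1', rfl⟩
    exact low T' h1'

theorem Vx_infinite : Infinite Vx :=
  Infinite.of_injective (fun n : ℕ => (⟨n, 0, W⟩ : Vx)) (by intro a b h; simpa using h)

theorem TG_nbr_finite (v : Vx) : (TG.neighborSet v).Finite := by
  apply (Set.toFinite ({fwd v, bwd v, cross v} : Set Vx)).subset
  intro y hy
  simpa [TG_adj] using hy

end Pool.Agent.MP_785f4e_co

end MrgPart3

-- marker of a merged file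
example : 731051 + 846566 = 731051 + 846566 := rfl
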