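import Mathlib.Data.Set.Card
import Mathlib.Combinatorics.SimpleGraph.Metric
import Mathlib.Order.CompletePartialOrder

set_option autoImplicit false

namespace Pool.Agent.MP_785f4e_co

/-- The Voronoi cell `C(v,T)`: all vertices at least as close to `v` as to every site of `T`
(ties are not broken). -/
def cell {V : Type} (G : SimpleGraph V) (T : Finset V) (v : V) : Set V :=
  {u | ∀ v' ∈ T, G.dist u v ≤ G.dist u v'}

/-- `I(T)`: the number of sites of `T` whose Voronoi cell is infinite. -/
noncomputable def infCount {V : Type} (G : SimpleGraph V) (T : Finset V) : ℕ :=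
  {v | v ∈ T ∧ (cell G T v).Infinite}.ncard

/-- The survival number `s(G)`: the supremum of the `n ≥ 1` for which there is a `d` such that
`I(T) ≥ n` for every finite `T` with `|T| ≥ n` whose distinct elements are at distance `> d`. -/
noncomputable def survival {V : Type} (G : SimpleGraph V) : ℕ∞ :=
  sSup {x : ℕ∞ | ∃ n : ℕ, x = n ∧ 1 ≤ n ∧ ∃ d : ℕ, ∀ T : Finset V, n ≤ T.card →
    (∀ a ∈ T, ∀ b ∈ T, a ≠ b → d < G.dist a b) → n ≤ infCount G T}

/-- `min {I(T) : |T| = n}`; its limit as `n → ∞` is the unrestricted count `t(G)`. -/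
noncomputable def minCount {V : Type} (G : SimpleGraph V) (n : ℕ) : ℕ :=
  sInf {k : ℕ | ∃ T : Finset V, T.card = n ∧ infCount G T = k}

end Pool.Agent.MP_785f4e_co
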